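import Pool.Agent.H315R2.EB.Stubs

/-!
# STD: the standard chamber of a basis (MP_26e62b_al)
-/

set_option autoImplicit false

namespace Pool.Agent.H315R2.EB

open Module
open scoped Pointwise

theorem STD_cexp_succ (m : ℕ) (hm : 0 < m) (k : ℤ) (i : Fin m) :
    cexp m (k + 1) i = cexp m k i + (if (m : ℤ) ∣ (((i : ℕ) : ℤ) - k) then 1 else 0) := by
  have hm' : (0 : ℤ) < (m : ℤ) := by exact_mod_cast hm
  unfold cexp
  by_cases h : (m : ℤ) ∣ (((i : ℕ) : ℤ) - k)
  · rw [if_pos h]
    obtain ⟨c, hc⟩ := h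
    have h1 : ((i : ℕ) : ℤ) - k = c * m := by rw [hc]; ring
    have h2 : (((i : ℕ) : ℤ) - k) / m = c := by
      rw [h1]; exact Int.mul_ediv_cancel _ hm'.ne'
    have h3 : (((i : ℕ) : ℤ) - (k + 1)) / m = c - 1 := by
      have h4 : ((i : ℕ) : ℤ) - (k + 1) = (m - 1) + (c - 1) * m := by linarith
      rw [h4, Int.add_mul_ediv_right _ _ hm'.ne', Int.ediv_eq_zero_of_lt (by omega) (by omega)]
      ring
    rw [h2, h3]
    ring
  · rw [if_neg h, add_zero]
    congr 1
    set q := (((i : ℕ) : ℤ) - k) / m with hq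
    set r := (((i : ℕ) : ℤ) - k) % m with hr
    have h1 : ((i : ℕ) : ℤ) - k = m * q + r := (Int.mul_ediv_add_emod _ _).symm
    have h2 : 0 ≤ r := Int.emod_nonneg _ hm'.ne'
    have h3 : r < m := Int.emod_lt_of_pos _ hm'
    have h4 : r ≠ 0 := by
      intro h0
      apply h
      rw [h1, h0, add_zero]
      exact dvd_mul_right _ _
    have h5 : ((i : ℕ) : ℤ) - (k + 1) = (r - 1) + q * m := by linarith
    rw [h5, Int.add_mul_ediv_right _ _ hm'.ne', Int.ediv_eq_zero_of_lt (by omega) (by omega)]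
    ring

theorem STD_cexp_per (m : ℕ) (hm : 0 < m) (k : ℤ) (i : Fin m) :
    cexp m (k + m) i = cexp m k i + 1 := by
  have hm' : (0 : ℤ) < (m : ℤ) := by exact_mod_cast hm
  unfold cexp
  have h1 : ((i : ℕ) : ℤ) - (k + m) = (((i : ℕ) : ℤ) - k) + (-1) * m := by ring
  rw [h1, Int.add_mul_ediv_right _ _ hm'.ne']
  ring

theorem STD_exists_index (m : ℕ) (hm : 0 < m) (k : ℤ) :
    ∃ i0 : Fin m, ∀ i : Fin m, ((m : ℤ) ∣ (((i : ℕ) : ℤ) - k)) ↔ i = i0 := by
  have hm' : (0 : ℤ) < (m : ℤ) := by exact_mod_cast hm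
  have h0 : 0 ≤ k % m := Int.emod_nonneg _ hm'.ne'
  have h1 : k % m < m := Int.emod_lt_of_pos _ hm'
  refine ⟨⟨(k % m).toNat, by omega⟩, ?_⟩
  intro i
  have hi := i.2
  have hk : k = m * (k / m) + k % m := (Int.mul_ediv_add_emod _ _).symm
  constructor
  · rintro h
    apply Fin.ext
    show (i : ℕ) = (k % m).toNat
    have h3 : (m : ℤ) ∣ (((i : ℕ) : ℤ) - k % m) := by
      have h4 : ((i : ℕ) : ℤ) - k % m = (((i : ℕ) : ℤ) - k) + m * (k / m) := by linarith
      rw [h4]
      exact dvd_add h (dvd_mul_right _ _)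
    have h5 : |((i : ℕ) : ℤ) - k % m| < m := by
      rw [abs_lt]; constructor <;> omega
    have h6 := Int.eq_zero_of_abs_lt_dvd h3 h5
    omega
  · rintro h
    have h2 : ((i : ℕ) : ℤ) = k % m := by
      rw [h]
      show (((k % m).toNat : ℕ) : ℤ) = k % m
      exact Int.toNat_of_nonneg h0
    rw [h2]
    have h4 : k % m - k = m * (-(k / m)) := by linarith
    rw [h4]
    exact dvd_mul_right _ _

theorem STD_proof (_hV : St_VAL) (hL : St_LAM) : St_STD := by
  intro O K V _ _ _ _ _ _ _ _ _ _ _ p hp m b hm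
  obtain ⟨hlat, hmem, hle, hhom⟩ := hL O K V p hp (Fin m) b
  refine ⟨fun k => hlat _, ?_, ?_⟩
  · intro k
    obtain ⟨i0, hi0⟩ := STD_exists_index m hm k
    have hsucc : ∀ i, cexp m (k + 1) i = cexp m k i + (if i = i0 then 1 else 0) := by
      intro i
      rw [STD_cexp_succ m hm k i]
      by_cases h : i = i0
      · rw [if_pos h, if_pos ((hi0 i).mpr h)]
      · rw [if_neg h, if_neg (fun h' => h ((hi0 i).mp h'))]
    have hLE : Lam O p b (cexp m (k + 1)) ≤ Lam O p b (cexp m k) := by
      rw [hle]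
      intro i
      rw [hsucc i]
      split_ifs <;> omega
    constructor
    · refine lt_of_le_of_ne hLE ?_
      intro h
      have h1 := (hle _ _).mp h.symm.le i0
      rw [hsucc i0, if_pos rfl] at h1
      omega
    · intro N hN1 hN2
      apply hN2.not_ge
      obtain ⟨x, hxN, hx⟩ := SetLike.exists_of_lt hN1
      obtain ⟨ϖ, hϖ, hϖp⟩ := hp
      have hxk : x ∈ Lam O p b (cexp m k) := hN2.le hxN
      have hsub : ∀ z : V, z ∈ Lam O p b (cexp m k) → ∀ r : O,
          b.repr z i0 = algebraMap O K r * ((p ^ cexp m k i0 : Kˣ) : K) →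
          z - r • (p ^ cexp m k i0 • b i0) ∈ Lam O p b (cexp m (k + 1)) := by
        intro z hz r hr
        rw [hmem]
        intro i
        have hrs : r • (p ^ cexp m k i0 • b i0)
            = (algebraMap O K r * ((p ^ cexp m k i0 : Kˣ) : K)) • b i0 := by
          rw [← algebraMap_smul K r, mul_smul, Units.smul_def]
        rw [hrs, map_sub, map_smul, Finsupp.sub_apply, Finsupp.smul_apply, Basis.repr_self]
        by_cases h : i = i0
        · subst h
          refine ⟨0, ?_⟩
          rw [Finsupp.single_eq_same, hr]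
          simp
        · obtain ⟨s, hs⟩ := (hmem _ _).mp hz i
          refine ⟨s, ?_⟩
          rw [Finsupp.single_eq_of_ne h, hs, hsucc i, if_neg h, add_zero]
          simp
      obtain ⟨r, hr⟩ := (hmem _ _).mp hxk i0
      have hru : IsUnit r := by
        by_contra hnu
        apply hx
        rw [hmem]
        intro i
        by_cases h : i = i0
        · subst h
          have hdvd : ϖ ∣ r := by
            rw [← Ideal.mem_span_singleton, ← hϖ.maximalIdeal_eq]
            exact (IsLocalRing.mem_maximalIdeal r).mpr hnu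
          obtain ⟨s, hs⟩ := hdvd
          refine ⟨s, ?_⟩
          rw [hr, hsucc i, if_pos rfl, zpow_add, zpow_one, hs, map_mul, hϖp]
          push_cast
          ring
        · obtain ⟨s, hs⟩ := (hmem _ _).mp hxk i
          refine ⟨s, ?_⟩
          rw [hs, hsucc i, if_neg h, add_zero]
      have h1 : r • (p ^ cexp m k i0 • b i0) ∈ N := by
        have h2 := N.sub_mem hxN (hN1.le (hsub x hxk r hr))
        rwa [sub_sub_cancel] at h2
      obtain ⟨ru, rfl⟩ := hru
      have h3 : p ^ cexp m k i0 • b i0 ∈ N := by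
        have h4 := N.smul_mem (↑ru⁻¹ : O) h1
        rwa [smul_smul, Units.inv_mul, one_smul] at h4
      intro z hz
      obtain ⟨s, hs⟩ := (hmem _ _).mp hz i0
      have h5 := N.add_mem (hN1.le (hsub z hz s hs)) (N.smul_mem s h3)
      rwa [sub_add_cancel] at h5
  · intro k
    have h1 := hhom (cexp m k) 1
    rw [zpow_one] at h1
    show Lam O p b (cexp m (k + m)) = p • Lam O p b (cexp m k)
    rw [h1]
    congr 1
    funext i
    exact STD_cexp_per m hm k i

end Pool.Agent.H315R2.EB
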